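import Mathlib
import Pool.Agent.R125.CplD

/-!
# The number of binary subword complexity sequences is subexponential
-/

set_option autoImplicit false

open Filter Topology

namespace Pool.Agent.Results.MP_d47c21_co.BinarySubexponential

open Pool.Agent.R125.Cpl

/-- `a_2(n)`: the number of subword complexity sequences of binary words of length `n`. -/
noncomputable def a2 (n : ℕ) : ℕ := (Seqs (Fin 2) n).ncard

/-- **The Enayati–Green asymptotics `a_2(n) ∼ 2^{n/2}` is false**: `a_2(n) / 2^{n/2}` tends to `0`,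
and indeed `a_2(n) = exp(o(n))`. -/
theorem result :
    Tendsto (fun n : ℕ => (a2 n : ℝ) / 2 ^ ((n : ℝ) / 2)) atTop (𝓝 0) ∧
    ¬ Tendsto (fun n : ℕ => (a2 n : ℝ) / 2 ^ ((n : ℝ) / 2)) atTop (𝓝 1) ∧
    Tendsto (fun n : ℕ => Real.log (a2 n) / n) atTop (𝓝 0) := by
  have h := ratio_tendsto (Fin 2) one_pos
  simp only [one_mul] at h
  exact ⟨h, fun h1 => zero_ne_one (tendsto_nhds_unique h h1), log_tendsto (Fin 2)⟩

end Pool.Agent.Results.MP_d47c21_co.BinarySubexponential
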